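import Mathlib
import Pool.Agent.Lib.MP_993768_co.Final

set_option autoImplicit false

/-!
Universal rooted amalgamations of abstract polytopes need not exist.

The 3-polytopes `P` and `Q` are maps on the sphere with 22 faces each (counting the least and the
greatest face).  `P` has eight vertices and three 2-faces: two octagons and one digon.  `Q` arises
from the map with two vertices and eight digonal 2-faces by splitting one of the vertices into two
vertices joined by an edge, each of degree five.  `O₁` consists of the flags of `P` through the
digon, and `O₂` of the flags of `Q` through the new edge.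

Both `R₁` and `R₂` have 42 faces.  They have eight vertices `0, ..., 7` and eight octagonal 2-faces,
each through all the vertices, in cyclic order; each of the eight facets lies between two
consecutive octagons.  Of the eight edges `{i, i + 1}` the four with `i` even are doubled, with a
digonal 2-face between the two copies, which lies in two opposite facets.  `R₁` and `R₂` differ in
the order in which the four pairs of opposite facets are used along the cycle of vertices.
-/

namespace Pool.Agent.Results.MP_993768_co.NoUniversalRooted

open Pool.Agent.Lib.MP_993768_co

/-- There are finite 3-polytopes `P`, `Q` with flag orbits `O₁`, `O₂` and two finite rooted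
amalgamations `R₁`, `R₂` of `P` and `Q` at `(O₁, O₂)` such that no amalgamation of `P` and `Q`
whatsoever covers both `R₁` and `R₂`.  In particular `P` and `Q` admit a rooted amalgamation, but
no universal rooted amalgamation. -/
theorem result.{u} :
    ∃ (P Q : Type) (_ : PartialOrder P) (_ : BoundedOrder P) (_ : PartialOrder Q)
      (_ : BoundedOrder Q) (O₁ : Set (Flag P)) (O₂ : Set (Flag Q)),
      Finite P ∧ Finite Q ∧ IsPolytope 3 P ∧ IsPolytope 3 Q ∧ IsFlagOrbit P O₁ ∧
      IsFlagOrbit Q O₂ ∧
      ∃ (R₁ R₂ : Type) (_ : PartialOrder R₁) (_ : BoundedOrder R₁) (_ : PartialOrder R₂)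
        (_ : BoundedOrder R₂),
        Finite R₁ ∧ Finite R₂ ∧ IsRootedAmalgamation 4 O₁ O₂ R₁ ∧
        IsRootedAmalgamation 4 O₁ O₂ R₂ ∧
        ∀ (U : Type u) [PartialOrder U] [BoundedOrder U],
          IsAmalgamation 4 P Q U → ¬(Covers U R₁ ∧ Covers U R₂) :=
  ⟨PP, QQ, inferInstance, inferInstance, inferInstance, inferInstance, O1, O2,
    inferInstance, inferInstance, polyP, polyQ, orbitP, orbitQ,
    RR1, RR2, inferInstance, inferInstance, inferInstance, inferInstance,
    inferInstance, inferInstance, rooted1, rooted2,
    fun _ _ _ hU h => no_common_cover hU h.1 h.2⟩

end Pool.Agent.Results.MP_993768_co.NoUniversalRooted
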